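import Pool.Agent.Helper69.FF.St

/-!
# Project FF (MP_d684b1_an): module F1a (blocks for functionals)
-/

set_option autoImplicit false

namespace Pool.Agent.Helper89.FF

open _root_.FF _root_.DV
open scoped BigOperators

theorem hF1a (hGR : StGR) : StF1a := by
  intro X _ _ m s r M J f x e θ he hθ hθ3 hle hex hcard hJ hrs
  have hs : 0 < s := by omega
  obtain ⟨j0, hj0⟩ := hex ⟨0, hs⟩
  have hne : (Finset.univ : Finset (Fin m)).Nonempty := ⟨j0, Finset.mem_univ _⟩
  let F : Fin m → Finset (Fin s) → ℝ := fun j S =>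
    ∑ i ∈ S.filter (fun i => θ ≤ |f j (x i)|), |f j (x i)|
  let V : Finset (Fin s) → ℝ := fun S => Finset.univ.sup' hne (fun j => F j S)
  have hFV : ∀ j S, F j S ≤ V S := fun j S =>
    Finset.le_sup' (fun j => F j S) (Finset.mem_univ j)
  have hmax : ∀ S, ∃ j, V S = F j S := by
    intro S
    obtain ⟨j, _, hj⟩ := Finset.exists_mem_eq_sup' hne (fun j => F j S)
    exact ⟨j, hj⟩
  have hFmono : ∀ j S S', S ⊆ S' → F j S ≤ F j S' := by
    intro j S S' h
    exact Finset.sum_le_sum_of_subset_of_nonneg (Finset.filter_subset_filter _ h)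
      (fun i _ _ => abs_nonneg _)
  have hmono : ∀ S S' : Finset (Fin s), S ⊆ S' → V S ≤ V S' := by
    intro S S' h
    obtain ⟨j, hj⟩ := hmax S
    rw [hj]
    exact (hFmono j S S' h).trans (hFV j S')
  have hlow : ∀ S : Finset (Fin s), S.Nonempty → 1 / 3 ≤ V S := by
    rintro S ⟨i, hi⟩
    obtain ⟨j, hj⟩ := hex i
    refine le_trans ?_ (hFV j S)
    have hmem : i ∈ S.filter (fun i => θ ≤ |f j (x i)|) :=
      Finset.mem_filter.mpr ⟨hi, hθ3.trans hj⟩
    exact hj.trans (Finset.single_le_sum (f := fun i => |f j (x i)|)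
      (fun i _ => abs_nonneg _) hmem)
  have hup : V Finset.univ ≤ (r : ℝ) := by
    obtain ⟨j, hj⟩ := hmax Finset.univ
    rw [hj]
    calc F j Finset.univ ≤ ∑ i ∈ Finset.univ.filter (fun i => θ ≤ |f j (x i)|), (1 : ℝ) :=
          Finset.sum_le_sum (fun i _ => hle j i)
      _ = ((Finset.univ.filter (fun i => θ ≤ |f j (x i)|)).card : ℝ) := by simp
      _ ≤ r := by exact_mod_cast hcard j
  have hfilt : ∀ j (S : Finset (Fin s)), F j (S.filter (fun i => θ ≤ |f j (x i)|)) = F j S := by
    intro j S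
    show ∑ i ∈ (S.filter (fun i => θ ≤ |f j (x i)|)).filter (fun i => θ ≤ |f j (x i)|),
      |f j (x i)| = ∑ i ∈ S.filter (fun i => θ ≤ |f j (x i)|), |f j (x i)|
    rw [Finset.filter_filter]
    simp only [and_self]
  have hcardS : ∀ j (S : Finset (Fin s)), (S.filter (fun i => θ ≤ |f j (x i)|)).card ≤ r :=
    fun j S => (Finset.card_le_card (Finset.filter_subset_filter _ (Finset.subset_univ S))).trans
      (hcard j)
  have hred : ∀ S : Finset (Fin s), ∃ B ⊆ S, B.card ≤ r ∧ V S ≤ V B := by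
    intro S
    obtain ⟨j, hj⟩ := hmax S
    refine ⟨S.filter (fun i => θ ≤ |f j (x i)|), Finset.filter_subset _ _, hcardS j S, ?_⟩
    rw [hj, ← hfilt j S]
    exact hFV j _
  obtain ⟨S, B', hS, hB', hdis⟩ := hGR s r M J V (1 / 3) r e (by norm_num) he.le hmono hlow hup
    hred (by linarith) hrs
  choose a ha using fun l => hmax (B' l)
  refine ⟨fun l => (B' l).filter (fun i => θ ≤ |f (a l) (x i)|), a,
    fun l i => if 0 ≤ f (a l) (x i) then 1 else -1, V S, hS, ?_, ?_, ?_, ?_, ?_, ?_, ?_⟩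
  · intro l i
    dsimp only
    split_ifs <;> simp
  · intro l
    exact hcardS (a l) (B' l)
  · intro l l' hl
    exact (hdis l l' hl).mono (Finset.filter_subset _ _) (Finset.filter_subset _ _)
  · intro l i hi
    exact (Finset.mem_filter.mp hi).2
  · intro j
    refine le_trans ?_ (hFV j S)
    have hpd : ∀ l ∈ (Finset.univ : Finset (Fin M)), ∀ l' ∈ (Finset.univ : Finset (Fin M)), l ≠ l' →
        Disjoint (((B' l).filter (fun i => θ ≤ |f (a l) (x i)|)).filter
          (fun i => θ ≤ |f j (x i)|)) (((B' l').filter (fun i => θ ≤ |f (a l') (x i)|)).filter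
          (fun i => θ ≤ |f j (x i)|)) := by
      intro l _ l' _ hl
      exact (hdis l l' hl).mono ((Finset.filter_subset _ _).trans (Finset.filter_subset _ _))
        ((Finset.filter_subset _ _).trans (Finset.filter_subset _ _))
    rw [← Finset.sum_biUnion hpd]
    refine Finset.sum_le_sum_of_subset_of_nonneg ?_ (fun i _ _ => abs_nonneg _)
    intro i hi
    rw [Finset.mem_biUnion] at hi
    obtain ⟨l, _, hl⟩ := hi
    rw [Finset.mem_filter, Finset.mem_filter] at hl
    exact Finset.mem_filter.mpr ⟨(hB' l).1 hl.1.1, hl.2⟩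
  · intro l i _
    dsimp only
    split_ifs with h
    · rw [one_mul, abs_of_nonneg h]
    · rw [abs_of_neg (not_le.mp h)]
      ring
  · intro l
    have h1 := (hB' l).2.2
    rw [ha l] at h1
    exact h1

end Pool.Agent.Helper89.FF
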